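import Mathlib
import Pool.Agent.W164.MO.Defs
import Pool.Agent.H895R3.NK.E3

/-! Exponential sums over primes with the second Bernoulli function (project MO, S_SN1). -/

set_option autoImplicit false

namespace Pool.Agent.W168.MO

open Finset
open Pool.Agent.W164.MO (b2 S_SN1)
open Pool.Agent.H469R2.NK (e norm_e e_add)

lemma b2_series (x : ℝ) :
    HasSum (fun n : ℕ => 1 / (n : ℝ) ^ 2 * Real.cos (2 * Real.pi * n * x)) (Real.pi ^ 2 * b2 x) := by
  have hx : Int.fract x ∈ Set.Icc (0 : ℝ) 1 := ⟨Int.fract_nonneg x, (Int.fract_lt_one x).le⟩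
  have h := hasSum_one_div_nat_pow_mul_cos (k := 1) one_ne_zero hx
  have h2 : (fun n : ℕ => 1 / (n : ℝ) ^ (2 * 1) * Real.cos (2 * Real.pi * n * Int.fract x)) =
      (fun n : ℕ => 1 / (n : ℝ) ^ 2 * Real.cos (2 * Real.pi * n * x)) := by
    funext n
    have : 2 * Real.pi * n * Int.fract x = 2 * Real.pi * n * x - ((n * ⌊x⌋ : ℤ) : ℝ) * (2 * Real.pi) := by
      rw [Int.fract]; push_cast; ring
    rw [this, Real.cos_sub_int_mul_two_pi]
  rw [h2] at h
  convert h using 1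
  have hB : (Polynomial.map (algebraMap ℚ ℝ) (Polynomial.bernoulli (2 * 1))).eval (Int.fract x) =
      Int.fract x ^ 2 - Int.fract x + 1 / 6 := by
    rw [Polynomial.bernoulli_def]
    simp [sum_range_succ, Polynomial.map_monomial, Polynomial.eval_monomial]
    ring
  rw [hB]
  unfold b2
  have hF : ((2 * 1).factorial : ℝ) = 2 := by norm_num [Nat.factorial]
  rw [hF]
  ring

lemma coef_le (D : ℕ) (Y β : ℝ) (h : ℕ) :
    |∑ q ∈ Ioc D (2 * D), ArithmeticFunction.vonMangoldt q *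
        Real.cos (2 * Real.pi * h * (Y / q + β))| ≤
      ‖∑ n ∈ Ioc D (2 * D), ((ArithmeticFunction.vonMangoldt n : ℝ) : ℂ) * e ((h * Y) / (n : ℝ))‖ := by
  have h1 : ∑ q ∈ Ioc D (2 * D), ArithmeticFunction.vonMangoldt q *
        Real.cos (2 * Real.pi * h * (Y / q + β)) =
      (e (h * β) * ∑ n ∈ Ioc D (2 * D),
        ((ArithmeticFunction.vonMangoldt n : ℝ) : ℂ) * e ((h * Y) / (n : ℝ))).re := by
    rw [mul_sum, Complex.re_sum]
    refine sum_congr rfl (fun q _ => ?_)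
    have : e (h * β) * (((ArithmeticFunction.vonMangoldt q : ℝ) : ℂ) * e ((h * Y) / (q : ℝ))) =
        ((ArithmeticFunction.vonMangoldt q : ℝ) : ℂ) * e (h * (Y / q + β)) := by
      rw [mul_left_comm, ← e_add]
      congr 2
      ring
    rw [this, Complex.re_ofReal_mul]
    congr 1
    unfold e
    rw [Complex.exp_ofReal_mul_I_re]
    congr 1
    ring
  rw [h1]
  refine (Complex.abs_re_le_norm _).trans ?_
  rw [norm_mul, norm_e, one_mul]

lemma triv_le (D : ℕ) (hD : 1 ≤ D) (Y β : ℝ) (h : ℕ) :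
    |∑ q ∈ Ioc D (2 * D), ArithmeticFunction.vonMangoldt q *
        Real.cos (2 * Real.pi * h * (Y / q + β))| ≤ D * (1 + Real.log (4 * D)) := by
  have hDr : (1 : ℝ) ≤ D := by exact_mod_cast hD
  refine (abs_sum_le_sum_abs _ _).trans ?_
  have h1 : ∀ q ∈ Ioc D (2 * D), |ArithmeticFunction.vonMangoldt q *
        Real.cos (2 * Real.pi * h * (Y / q + β))| ≤ 1 + Real.log (4 * D) := by
    intro q hq
    rw [mem_Ioc] at hq
    rw [abs_mul, abs_of_nonneg ArithmeticFunction.vonMangoldt_nonneg]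
    have h2 : ArithmeticFunction.vonMangoldt q ≤ Real.log q := ArithmeticFunction.vonMangoldt_le_log
    have h3 : Real.log q ≤ Real.log (4 * D) := by
      apply Real.log_le_log
      · have : 0 < q := by omega
        exact_mod_cast this
      · have : (q : ℝ) ≤ 2 * D := by exact_mod_cast hq.2
        linarith
    have h4 := Real.abs_cos_le_one (2 * Real.pi * h * (Y / q + β))
    have h5 : (0 : ℝ) ≤ ArithmeticFunction.vonMangoldt q := ArithmeticFunction.vonMangoldt_nonneg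
    have h6 := abs_nonneg (Real.cos (2 * Real.pi * h * (Y / q + β)))
    nlinarith
  refine (sum_le_card_nsmul _ _ _ h1).trans ?_
  rw [Nat.card_Ioc, nsmul_eq_mul]
  have : ((2 * D - D : ℕ) : ℝ) = D := by
    rw [show 2 * D - D = D by omega]
  rw [this]

set_option maxHeartbeats 4000000 in
/-- **SN1** -/
theorem sn1 : S_SN1 := by
  obtain ⟨η, hη0, hη1, C, hC1, hpe⟩ := Pool.Agent.H895R3.NK.prime_exp_bound 6
  set ε : ℝ := η / 96 with hε
  have hε0 : 0 < ε := by positivity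
  set K : ℝ := 1 + 4 ^ ε / ε with hK
  have hK1 : 1 ≤ K := by
    have : (0 : ℝ) < 4 ^ ε / ε := by positivity
    linarith
  set Z : ℝ := ∑' h : ℕ, 1 / (h : ℝ) ^ (3 / 2 : ℝ) with hZ
  have hZs : Summable (fun h : ℕ => 1 / (h : ℝ) ^ (3 / 2 : ℝ)) :=
    Real.summable_one_div_nat_rpow.2 (by norm_num)
  have hZ0 : 0 ≤ Z := tsum_nonneg (fun h => by positivity)
  refine ⟨η / 16, (22 * C * K ^ 6 + K) * (Z + 1), by positivity, by linarith, by positivity, ?_⟩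
  intro D hD Y β hY1 hY2
  have hDr : (10 : ℝ) ^ 4 ≤ D := by exact_mod_cast hD
  have hD1 : (1 : ℝ) ≤ D := by linarith
  have hD0 : (0 : ℝ) < D := by linarith
  set L : ℝ := 1 + Real.log (4 * D) with hL
  have hlog : 0 ≤ Real.log (4 * D) := Real.log_nonneg (by linarith)
  have hL1 : 1 ≤ L := by linarith
  have hLK : L ≤ K * (D : ℝ) ^ ε := by
    have h1 : Real.log (4 * D) ≤ (4 * D) ^ ε / ε := Real.log_le_rpow_div (by positivity) hε0
    rw [Real.mul_rpow (by norm_num) hD0.le] at h1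
    have h2 : (1 : ℝ) ≤ (D : ℝ) ^ ε := Real.one_le_rpow hD1 hε0.le
    calc L ≤ (D : ℝ) ^ ε + 4 ^ ε * (D : ℝ) ^ ε / ε := by linarith
      _ = K * (D : ℝ) ^ ε := by rw [hK]; ring
  have hDpow : (D : ℝ) ^ (1 - η / 8) * (D : ℝ) ^ (6 * ε) = (D : ℝ) ^ (1 - η / 16) := by
    rw [← Real.rpow_add hD0]; congr 1; rw [hε]; ring
  have hL6 : L ^ 6 ≤ K ^ 6 * (D : ℝ) ^ (6 * ε) := by
    have h1 : L ^ 6 ≤ (K * (D : ℝ) ^ ε) ^ 6 := pow_le_pow_left₀ (by linarith) hLK 6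
    rw [mul_pow] at h1
    have h2 : ((D : ℝ) ^ ε) ^ 6 = (D : ℝ) ^ (6 * ε) := by
      rw [← Real.rpow_natCast, ← Real.rpow_mul hD0.le]; congr 1; push_cast; ring
    rwa [h2] at h1
  have hYpos : 0 < Y := lt_of_lt_of_le (by positivity) hY1
  -- main bound for 1 ≤ h ≤ D^3
  have hmain : ∀ h : ℕ, 1 ≤ h → (h : ℝ) ≤ (D : ℝ) ^ 3 →
      |∑ q ∈ Ioc D (2 * D), ArithmeticFunction.vonMangoldt q *
        Real.cos (2 * Real.pi * h * (Y / q + β))| ≤ 22 * C * K ^ 6 * (D : ℝ) ^ (1 - η / 16) := by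
    intro h hh1 hh2
    have hhr : (1 : ℝ) ≤ h := by exact_mod_cast hh1
    have hξ0 : 0 < h * Y := by positivity
    have hξ1 : (D : ℝ) ^ (3 / 2 : ℝ) ≤ h * Y := by nlinarith
    have hξ2 : h * Y ≤ (D : ℝ) ^ 6 := by
      calc h * Y ≤ (D : ℝ) ^ 3 * (D : ℝ) ^ 3 := mul_le_mul hh2 hY2 hYpos.le (by positivity)
        _ = (D : ℝ) ^ 6 := by ring
    refine (coef_le D Y β h).trans ?_
    have hb := hpe D (2 * D) hD (by omega) le_rfl (h * Y) hξ0 hξ2
    rw [← hL] at hb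
    refine hb.trans ?_
    have hP : (0 : ℝ) < (D : ℝ) ^ (3 / 2 : ℝ) := by positivity
    have c1 : (D : ℝ) ^ 3 * L / (h * Y) ≤ (D : ℝ) ^ (2 - η / 4) * L := by
      have h3 : (D : ℝ) ^ 3 = (D : ℝ) ^ (3 / 2 : ℝ) * (D : ℝ) ^ (3 / 2 : ℝ) := by
        rw [← Real.rpow_add hD0, ← Real.rpow_natCast]; congr 1; norm_num
      have h4 : (D : ℝ) ^ 3 / (h * Y) ≤ (D : ℝ) ^ (3 / 2 : ℝ) := by
        rw [div_le_iff₀ hξ0, h3]
        exact mul_le_mul_of_nonneg_left hξ1 hP.le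
      have h5 : (D : ℝ) ^ (3 / 2 : ℝ) ≤ (D : ℝ) ^ (2 - η / 4) :=
        Real.rpow_le_rpow_of_exponent_le hD1 (by linarith)
      calc (D : ℝ) ^ 3 * L / (h * Y) = ((D : ℝ) ^ 3 / (h * Y)) * L := by ring
        _ ≤ (D : ℝ) ^ (2 - η / 4) * L :=
          mul_le_mul_of_nonneg_right (h4.trans h5) (by linarith)
    have c2 : (D : ℝ) ^ 2 * ((D : ℝ) ^ (-(η / 4))) = (D : ℝ) ^ (2 - η / 4) := by
      rw [← Real.rpow_natCast (D : ℝ) 2, ← Real.rpow_add hD0]; congr 1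
    have c3 : Real.sqrt (C * ((D : ℝ) ^ 2 * ((D : ℝ) ^ (-(η / 4))) + (D : ℝ) ^ 3 * L / (h * Y))) ≤
        2 * C * L * (D : ℝ) ^ (1 - η / 8) := by
      rw [Real.sqrt_le_left (by positivity), c2]
      have h6 : (2 * C * L * (D : ℝ) ^ (1 - η / 8)) ^ 2 = (2 * C * L) ^ 2 * (D : ℝ) ^ (2 - η / 4) := by
        rw [mul_pow, ← Real.rpow_natCast ((D : ℝ) ^ (1 - η / 8)) 2, ← Real.rpow_mul hD0.le]
        congr 2
        push_cast; ring
      rw [h6]
      have h7 : (0 : ℝ) < (D : ℝ) ^ (2 - η / 4) := by positivity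
      have h8 : C * (1 + L) ≤ (2 * C * L) ^ 2 := by
        have h9 : C * (1 + L) ≤ 2 * C * L := by nlinarith
        have h10 : 1 ≤ 2 * C * L := by nlinarith
        nlinarith
      calc C * ((D : ℝ) ^ (2 - η / 4) + (D : ℝ) ^ 3 * L / (h * Y))
          ≤ C * ((D : ℝ) ^ (2 - η / 4) + (D : ℝ) ^ (2 - η / 4) * L) := by
            apply mul_le_mul_of_nonneg_left _ (by linarith); linarith
        _ = (C * (1 + L)) * (D : ℝ) ^ (2 - η / 4) := by ring
        _ ≤ (2 * C * L) ^ 2 * (D : ℝ) ^ (2 - η / 4) := mul_le_mul_of_nonneg_right h8 h7.le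
    have c4 : (D : ℝ) ^ 2 / (h * Y) ≤ (D : ℝ) ^ (1 - η / 8) := by
      have h3 : (D : ℝ) ^ 2 = (D : ℝ) ^ (1 / 2 : ℝ) * (D : ℝ) ^ (3 / 2 : ℝ) := by
        rw [← Real.rpow_add hD0, ← Real.rpow_natCast]; congr 1; norm_num
      have h4 : (D : ℝ) ^ 2 / (h * Y) ≤ (D : ℝ) ^ (1 / 2 : ℝ) := by
        rw [div_le_iff₀ hξ0, h3]
        exact mul_le_mul_of_nonneg_left hξ1 (by positivity)
      exact h4.trans (Real.rpow_le_rpow_of_exponent_le hD1 (by linarith))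
    have c5 : (D : ℝ) * (D : ℝ) ^ (-(η / 4)) ≤ (D : ℝ) ^ (1 - η / 8) := by
      have : (D : ℝ) * (D : ℝ) ^ (-(η / 4)) = (D : ℝ) ^ (1 - η / 4) := by
        nth_rewrite 1 [← Real.rpow_one (D : ℝ)]
        rw [← Real.rpow_add hD0]; congr 1
      rw [this]
      exact Real.rpow_le_rpow_of_exponent_le hD1 (by linarith)
    have hX : (0 : ℝ) < (D : ℝ) ^ (1 - η / 8) := by positivity
    have hL5 : (0 : ℝ) ≤ 8 * L ^ 5 := by positivity
    have hL2 : L ^ 2 ≤ L ^ 6 := pow_le_pow_right₀ hL1 (by norm_num)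
    calc 8 * L ^ 5 * Real.sqrt (C * ((D : ℝ) ^ 2 * ((D : ℝ) ^ (-(η / 4))) +
            (D : ℝ) ^ 3 * L / (h * Y))) +
          3 * L * (C * ((D : ℝ) ^ 2 / (h * Y) + (D : ℝ) * (D : ℝ) ^ (-(η / 4))) * L)
        ≤ 8 * L ^ 5 * (2 * C * L * (D : ℝ) ^ (1 - η / 8)) +
          3 * L * (C * ((D : ℝ) ^ (1 - η / 8) + (D : ℝ) ^ (1 - η / 8)) * L) := by
          gcongr
      _ = 16 * C * L ^ 6 * (D : ℝ) ^ (1 - η / 8) + 6 * C * L ^ 2 * (D : ℝ) ^ (1 - η / 8) := by ring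
      _ ≤ 16 * C * L ^ 6 * (D : ℝ) ^ (1 - η / 8) + 6 * C * L ^ 6 * (D : ℝ) ^ (1 - η / 8) := by
          gcongr
      _ = 22 * C * (D : ℝ) ^ (1 - η / 8) * L ^ 6 := by ring
      _ ≤ 22 * C * (D : ℝ) ^ (1 - η / 8) * (K ^ 6 * (D : ℝ) ^ (6 * ε)) := by gcongr
      _ = 22 * C * K ^ 6 * ((D : ℝ) ^ (1 - η / 8) * (D : ℝ) ^ (6 * ε)) := by ring
      _ = 22 * C * K ^ 6 * (D : ℝ) ^ (1 - η / 16) := by rw [hDpow]
  set A : ℝ := (22 * C * K ^ 6 + K) * (D : ℝ) ^ (1 - η / 16) with hA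
  have hA0 : 0 ≤ A := by positivity
  -- uniform bound
  have hall : ∀ h : ℕ, |1 / (h : ℝ) ^ 2 * ∑ q ∈ Ioc D (2 * D), ArithmeticFunction.vonMangoldt q *
        Real.cos (2 * Real.pi * h * (Y / q + β))| ≤ A * (1 / (h : ℝ) ^ (3 / 2 : ℝ)) := by
    intro h
    rcases Nat.eq_zero_or_pos h with h0 | hpos
    · subst h0
      simp only [Nat.cast_zero]
      rw [Real.zero_rpow (by norm_num)]
      simp
    have hhr : (1 : ℝ) ≤ h := by exact_mod_cast hpos
    have hh0 : (0 : ℝ) < h := by linarith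
    rw [abs_mul, abs_of_pos (by positivity)]
    have hsplit : (h : ℝ) ^ 2 = (h : ℝ) ^ (1 / 2 : ℝ) * (h : ℝ) ^ (3 / 2 : ℝ) := by
      rw [← Real.rpow_add hh0, ← Real.rpow_natCast]; congr 1; norm_num
    by_cases hcase : (h : ℝ) ≤ (D : ℝ) ^ 3
    · have h1 := hmain h hpos hcase
      have h2 : 1 / (h : ℝ) ^ 2 ≤ 1 / (h : ℝ) ^ (3 / 2 : ℝ) := by
        apply one_div_le_one_div_of_le (by positivity)
        rw [hsplit]
        have : 1 ≤ (h : ℝ) ^ (1 / 2 : ℝ) := Real.one_le_rpow hhr (by norm_num)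
        nlinarith [show (0 : ℝ) < (h : ℝ) ^ (3 / 2 : ℝ) by positivity]
      have h3 : 22 * C * K ^ 6 * (D : ℝ) ^ (1 - η / 16) ≤ A := by
        rw [hA, add_mul]
        have : 0 ≤ K * (D : ℝ) ^ (1 - η / 16) := by positivity
        linarith
      calc 1 / (h : ℝ) ^ 2 * |∑ q ∈ Ioc D (2 * D), ArithmeticFunction.vonMangoldt q *
            Real.cos (2 * Real.pi * h * (Y / q + β))|
          ≤ 1 / (h : ℝ) ^ (3 / 2 : ℝ) * A :=
            mul_le_mul h2 (h1.trans h3) (abs_nonneg _) (by positivity)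
        _ = A * (1 / (h : ℝ) ^ (3 / 2 : ℝ)) := by ring
    · push Not at hcase
      have h1 := triv_le D (by omega) Y β h
      rw [← hL] at h1
      have h2 : (D : ℝ) ≤ (h : ℝ) ^ (1 / 2 : ℝ) := by
        have h3 : (D : ℝ) ^ 2 ≤ h := by
          have : (D : ℝ) ^ 2 ≤ (D : ℝ) ^ 3 := pow_le_pow_right₀ hD1 (by norm_num)
          linarith
        rw [← Real.sqrt_eq_rpow]
        exact Real.le_sqrt_of_sq_le h3
      have h4 : L ≤ A := by
        have h5 : (D : ℝ) ^ ε ≤ (D : ℝ) ^ (1 - η / 16) :=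
          Real.rpow_le_rpow_of_exponent_le hD1 (by rw [hε]; linarith)
        calc L ≤ K * (D : ℝ) ^ ε := hLK
          _ ≤ K * (D : ℝ) ^ (1 - η / 16) := by gcongr
          _ ≤ A := by
            rw [hA, add_mul]
            have : 0 ≤ 22 * C * K ^ 6 * (D : ℝ) ^ (1 - η / 16) := by positivity
            linarith
      have hq : (0 : ℝ) < (h : ℝ) ^ (1 / 2 : ℝ) := by positivity
      calc 1 / (h : ℝ) ^ 2 * |∑ q ∈ Ioc D (2 * D), ArithmeticFunction.vonMangoldt q *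
            Real.cos (2 * Real.pi * h * (Y / q + β))|
          ≤ 1 / (h : ℝ) ^ 2 * (D * L) := by gcongr
        _ ≤ 1 / (h : ℝ) ^ 2 * ((h : ℝ) ^ (1 / 2 : ℝ) * A) := by
            apply mul_le_mul_of_nonneg_left _ (by positivity)
            exact mul_le_mul h2 h4 (by linarith) hq.le
        _ = A * (1 / (h : ℝ) ^ (3 / 2 : ℝ)) := by
            rw [hsplit]
            field_simp
  -- the series
  have hser : HasSum (fun h : ℕ => 1 / (h : ℝ) ^ 2 * ∑ q ∈ Ioc D (2 * D),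
      ArithmeticFunction.vonMangoldt q * Real.cos (2 * Real.pi * h * (Y / q + β)))
      (∑ q ∈ Ioc D (2 * D), ArithmeticFunction.vonMangoldt q * (Real.pi ^ 2 * b2 (Y / q + β))) := by
    have h1 : HasSum (fun h : ℕ => ∑ q ∈ Ioc D (2 * D), ArithmeticFunction.vonMangoldt q *
        (1 / (h : ℝ) ^ 2 * Real.cos (2 * Real.pi * h * (Y / q + β))))
        (∑ q ∈ Ioc D (2 * D), ArithmeticFunction.vonMangoldt q * (Real.pi ^ 2 * b2 (Y / q + β))) :=
      hasSum_sum (fun q _ => (b2_series (Y / q + β)).mul_left _)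
    convert h1 using 1
    funext h
    rw [mul_sum]
    refine sum_congr rfl (fun q _ => ?_)
    ring
  have hsumm : Summable (fun h : ℕ => A * (1 / (h : ℝ) ^ (3 / 2 : ℝ))) := hZs.mul_left A
  have hfin : |∑ q ∈ Ioc D (2 * D), ArithmeticFunction.vonMangoldt q *
      (Real.pi ^ 2 * b2 (Y / q + β))| ≤ A * Z := by
    rw [← hser.tsum_eq, hZ, ← tsum_mul_left]
    have h1 := tsum_of_norm_bounded (f := fun h : ℕ => 1 / (h : ℝ) ^ 2 * ∑ q ∈ Ioc D (2 * D),
      ArithmeticFunction.vonMangoldt q * Real.cos (2 * Real.pi * h * (Y / q + β)))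
      hsumm.hasSum (fun h => by rw [Real.norm_eq_abs]; exact hall h)
    rwa [Real.norm_eq_abs] at h1
  have heq : ∑ q ∈ Ioc D (2 * D), ArithmeticFunction.vonMangoldt q *
      (Real.pi ^ 2 * b2 (Y / q + β)) =
      Real.pi ^ 2 * ∑ q ∈ Ioc D (2 * D), ArithmeticFunction.vonMangoldt q * b2 (Y / q + β) := by
    rw [mul_sum]
    refine sum_congr rfl (fun q _ => ?_)
    ring
  rw [heq, abs_mul, abs_of_pos (by positivity)] at hfin
  have hpi : (1 : ℝ) ≤ Real.pi ^ 2 := by nlinarith [Real.pi_gt_three]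
  set S := |∑ q ∈ Ioc D (2 * D), ArithmeticFunction.vonMangoldt q * b2 (Y / q + β)| with hS
  have hS0 : 0 ≤ S := abs_nonneg _
  calc S ≤ Real.pi ^ 2 * S := by nlinarith
    _ ≤ A * Z := hfin
    _ ≤ A * (Z + 1) := by nlinarith
    _ = (22 * C * K ^ 6 + K) * (Z + 1) * (D : ℝ) ^ (1 - η / 16) := by rw [hA]; ring

end Pool.Agent.W168.MO
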